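import Mathlib

/-!
# Discrepancy of random subsets of hypercube neighbourhoods: between `√n` and `√(n log n)`

Lower bound: if `16 (2t+1)² ≤ n+1` then all but a fraction `2^(-2^n)` of the families have
discrepancy greater than `t` (union bound over all colourings; for a fixed colouring the signed sum
of a random subset of a neighbourhood is a shifted binomial variable).
Upper bound: every family has discrepancy at most `√(2 n log (8 n²)) + 1`, by the local lemma
(proved here in a counting form) and an exponential moment bound; also at most `⌈n/2⌉`.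
-/

open Finset

namespace Pool.Agent.Results.MP_3166d6_co.UpToLog

/-- vertices of the hypercube -/
abbrev V (n : ℕ) := Fin n → Bool

/-- the neighbour of `v` in direction `i` -/
def nb {n : ℕ} (v : V n) (i : Fin n) : V n := Function.update v i (!(v i))

/-- the value `1` or `-1` of a colour -/
def sg (b : Bool) : ℤ := if b then 1 else -1

/-- the set `S_v` of the family given by the choices `ω`: the neighbour of `v` in direction `i` is
in `S_v` exactly when `ω v i` is true -/
def S {n : ℕ} (ω : V n → Fin n → Bool) (v : V n) : Finset (V n) :=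
  (univ.filter (fun i => ω v i = true)).image (nb v)

/-- discrepancy of a family `(S_v)` of subsets of `V n` -/
noncomputable def disc {n : ℕ} (T : V n → Finset (V n)) : ℕ :=
  sInf {D : ℕ | ∃ χ : V n → Bool, ∀ v, |∑ x ∈ T v, sg (χ x)| ≤ (D : ℤ)}

theorem nb_inj {n : ℕ} (v : V n) : Function.Injective (nb v) := by
  intro i j hij
  by_contra hne
  have h := congrFun hij i
  simp only [nb, Function.update_self, Function.update_of_ne hne] at h
  cases hv : v i <;> simp [hv] at h

theorem sum_S {n : ℕ} (ω : V n → Fin n → Bool) (χ : V n → Bool) (v : V n) :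
    ∑ x ∈ S ω v, sg (χ x) = ∑ i, if ω v i = true then sg (χ (nb v i)) else 0 := by
  rw [S, Finset.sum_image (fun a _ b _ h => nb_inj v h), Finset.sum_filter]

/-- anti-concentration for one value -/
theorem one_value {n : ℕ} (s : Fin n → Bool) (z : ℤ) :
    (univ.filter (fun w : Fin n → Bool => ∑ i, (if w i = true then sg (s i) else 0) = z)).card ≤
      n.choose (n / 2) := by
  classical
  obtain ⟨m, hm⟩ : ∃ m : ℤ, m = z + ∑ i, (if s i = true then (0 : ℤ) else 1) := ⟨_, rfl⟩
  have h1 : (univ.filter (fun w : Fin n → Bool =>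
      ∑ i, (if w i = true then sg (s i) else 0) = z)).card ≤
      ((univ : Finset (Fin n)).powersetCard m.toNat).card := by
    refine Finset.card_le_card_of_injOn (fun w => univ.filter (fun i => w i = s i)) ?_ ?_
    · intro w hw
      simp only [Finset.coe_filter, Finset.mem_univ, true_and, Set.mem_ofPred_eq] at hw
      simp only [Finset.mem_coe, Finset.mem_powersetCard, Finset.subset_univ, true_and]
      have h2 : ((univ.filter (fun i => w i = s i)).card : ℤ) = m := by
        rw [hm, ← hw, Finset.card_filter, ← Finset.sum_add_distrib]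
        push_cast
        apply Finset.sum_congr rfl
        intro i _
        cases w i <;> cases s i <;> simp [sg]
      omega
    · intro w _ w' _ hww
      funext i
      have := Finset.ext_iff.mp hww i
      simp only [Finset.mem_filter, Finset.mem_univ, true_and] at this
      cases hw : w i <;> cases hw' : w' i <;> cases hs : s i <;> simp_all
  refine h1.trans ?_
  rw [Finset.card_powersetCard, Finset.card_univ, Fintype.card_fin]
  exact Nat.choose_le_middle _ _

theorem anti {n : ℕ} (s : Fin n → Bool) (t : ℕ) :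
    (univ.filter (fun w : Fin n → Bool =>
      |∑ i, (if w i = true then sg (s i) else 0)| ≤ (t : ℤ))).card ≤
      (2 * t + 1) * n.choose (n / 2) := by
  classical
  have hsub : (univ.filter (fun w : Fin n → Bool =>
      |∑ i, (if w i = true then sg (s i) else 0)| ≤ (t : ℤ))) ⊆
      (Finset.Icc (-(t : ℤ)) t).biUnion (fun z => univ.filter (fun w : Fin n → Bool =>
        ∑ i, (if w i = true then sg (s i) else 0) = z)) := by
    intro w hw
    rw [Finset.mem_filter, abs_le] at hw
    rw [Finset.mem_biUnion]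
    exact ⟨_, Finset.mem_Icc.mpr hw.2, Finset.mem_filter.mpr ⟨Finset.mem_univ _, rfl⟩⟩
  refine (Finset.card_le_card hsub).trans (Finset.card_biUnion_le.trans ?_)
  refine (Finset.sum_le_card_nsmul _ _ _ (fun z _ => one_value s z)).trans ?_
  rw [Int.card_Icc, smul_eq_mul]
  apply Nat.mul_le_mul_right
  omega

theorem central (m : ℕ) : (Nat.centralBinom m) ^ 2 * (2 * m + 1) ≤ 4 ^ (2 * m) := by
  induction m with
  | zero => simp
  | succ m ih =>
    have h := Nat.succ_mul_centralBinom_succ m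
    have h1 : (m + 1) ^ 2 * ((Nat.centralBinom (m + 1)) ^ 2 * (2 * (m + 1) + 1)) ≤
        (m + 1) ^ 2 * 4 ^ (2 * (m + 1)) := by
      calc (m + 1) ^ 2 * ((Nat.centralBinom (m + 1)) ^ 2 * (2 * (m + 1) + 1))
          = ((m + 1) * Nat.centralBinom (m + 1)) ^ 2 * (2 * m + 3) := by ring
        _ = (2 * (2 * m + 1) * Nat.centralBinom m) ^ 2 * (2 * m + 3) := by rw [h]
        _ = ((Nat.centralBinom m) ^ 2 * (2 * m + 1)) * (4 * ((2 * m + 1) * (2 * m + 3))) := by ring
        _ ≤ 4 ^ (2 * m) * (4 * ((2 * m + 1) * (2 * m + 3))) := Nat.mul_le_mul_right _ ih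
        _ ≤ 4 ^ (2 * m) * (16 * (m + 1) ^ 2) := by
            apply Nat.mul_le_mul_left
            nlinarith
        _ = (m + 1) ^ 2 * 4 ^ (2 * (m + 1)) := by ring
    exact Nat.le_of_mul_le_mul_left h1 (by positivity)

theorem middle (n : ℕ) : (n.choose (n / 2)) ^ 2 * (n + 1) ≤ 4 ^ n := by
  rcases Nat.even_or_odd' n with ⟨m, rfl | rfl⟩
  · have h := central m
    rw [show 2 * m / 2 = m by omega]
    rw [Nat.centralBinom] at h
    exact h
  · rw [show (2 * m + 1) / 2 = m by omega]
    have h := central (m + 1)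
    have h2 : Nat.centralBinom (m + 1) = 2 * (2 * m + 1).choose m := by
      rw [Nat.centralBinom, show 2 * (m + 1) = (2 * m + 1) + 1 by ring, Nat.choose_succ_succ,
        show (2 * m + 1).choose (m + 1) = (2 * m + 1).choose m by
          rw [← Nat.choose_symm_of_eq_add (show 2 * m + 1 = (m + 1) + m by ring)]]
      ring
    rw [h2] at h
    have h3 : 4 * (((2 * m + 1).choose m) ^ 2 * (2 * m + 1 + 1)) ≤ 4 * 4 ^ (2 * m + 1) := by
      calc 4 * (((2 * m + 1).choose m) ^ 2 * (2 * m + 1 + 1))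
          ≤ (2 * (2 * m + 1).choose m) ^ 2 * (2 * (m + 1) + 1) := by
            have : 0 ≤ ((2 * m + 1).choose m) ^ 2 := Nat.zero_le _
            nlinarith
        _ ≤ 4 ^ (2 * (m + 1)) := h
        _ = 4 * 4 ^ (2 * m + 1) := by ring
    omega

theorem num {n t : ℕ} (h : 16 * (2 * t + 1) ^ 2 ≤ n + 1) :
    4 * ((2 * t + 1) * n.choose (n / 2)) ≤ 2 ^ n := by
  have h1 := middle n
  have h2 : (4 * ((2 * t + 1) * n.choose (n / 2))) ^ 2 ≤ (2 ^ n) ^ 2 := by
    calc (4 * ((2 * t + 1) * n.choose (n / 2))) ^ 2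
        = (n.choose (n / 2)) ^ 2 * (16 * (2 * t + 1) ^ 2) := by ring
      _ ≤ (n.choose (n / 2)) ^ 2 * (n + 1) := Nat.mul_le_mul_left _ h
      _ ≤ 4 ^ n := h1
      _ = (2 ^ n) ^ 2 := by rw [← pow_mul, mul_comm, pow_mul]; norm_num
  exact (Nat.pow_le_pow_iff_left (by norm_num)).mp h2

/-- At most a fraction `2^(-2^n)` of the families have discrepancy at most `t`. -/
theorem count {n t : ℕ} (h : 16 * (2 * t + 1) ^ 2 ≤ n + 1) :
    (univ.filter (fun ω : V n → Fin n → Bool => disc (S ω) ≤ t)).card * 2 ^ (2 ^ n) ≤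
      Fintype.card (V n → Fin n → Bool) := by
  classical
  have hV : Fintype.card (V n) = 2 ^ n := by simp
  have hsub : (univ.filter (fun ω : V n → Fin n → Bool => disc (S ω) ≤ t)) ⊆
      (univ : Finset (V n → Bool)).biUnion (fun χ => Fintype.piFinset (fun v : V n =>
        univ.filter (fun w : Fin n → Bool =>
          |∑ i, (if w i = true then sg (χ (nb v i)) else 0)| ≤ (t : ℤ)))) := by
    intro ω hω
    rw [Finset.mem_filter] at hω
    have hne : {D : ℕ | ∃ χ : V n → Bool, ∀ v, |∑ x ∈ S ω v, sg (χ x)| ≤ (D : ℤ)}.Nonempty := by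
      refine ⟨∑ v, (|∑ x ∈ S ω v, sg true|).toNat, fun _ => true, fun v => ?_⟩
      have h1 : (|∑ x ∈ S ω v, sg true|).toNat ≤ ∑ v, (|∑ x ∈ S ω v, sg true|).toNat :=
        Finset.single_le_sum (f := fun v => (|∑ x ∈ S ω v, sg true|).toNat)
          (fun _ _ => Nat.zero_le _) (Finset.mem_univ v)
      have h2 := abs_nonneg (∑ x ∈ S ω v, sg true)
      show |∑ x ∈ S ω v, sg true| ≤ _
      omega
    obtain ⟨χ, hχ⟩ := Nat.sInf_mem hne
    rw [Finset.mem_biUnion]
    refine ⟨χ, Finset.mem_univ _, ?_⟩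
    rw [Fintype.mem_piFinset]
    intro v
    rw [Finset.mem_filter]
    refine ⟨Finset.mem_univ _, ?_⟩
    rw [← sum_S]
    have h3 : ((disc (S ω) : ℕ) : ℤ) ≤ t := by exact_mod_cast hω.2
    exact (hχ v).trans h3
  have h1 := (Finset.card_le_card hsub).trans Finset.card_biUnion_le
  have h2 : ∀ χ ∈ (univ : Finset (V n → Bool)), (Fintype.piFinset (fun v : V n =>
        univ.filter (fun w : Fin n → Bool =>
          |∑ i, (if w i = true then sg (χ (nb v i)) else 0)| ≤ (t : ℤ)))).card ≤
        ((2 * t + 1) * n.choose (n / 2)) ^ (2 ^ n) := by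
    intro χ _
    rw [Fintype.card_piFinset]
    refine (Finset.prod_le_pow_card _ _ _ (fun v _ => anti (fun i => χ (nb v i)) t)).trans ?_
    rw [Finset.card_univ, hV]
  have h3 := h1.trans (Finset.sum_le_card_nsmul _ _ _ h2)
  rw [Finset.card_univ, smul_eq_mul, Fintype.card_fun, hV, Fintype.card_bool] at h3
  refine (Nat.mul_le_mul_right _ h3).trans ?_
  rw [Fintype.card_fun, hV]
  calc 2 ^ 2 ^ n * ((2 * t + 1) * n.choose (n / 2)) ^ 2 ^ n * 2 ^ 2 ^ n
      = (4 * ((2 * t + 1) * n.choose (n / 2))) ^ 2 ^ n := by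
        have e : ∀ X N : ℕ, 2 ^ N * X ^ N * 2 ^ N = (4 * X) ^ N := by
          intro X N
          have h4 : (4 : ℕ) ^ N = 2 ^ N * 2 ^ N := by
            rw [← mul_pow]
            norm_num
          rw [mul_pow, h4]
          ring
        exact e _ _
    _ ≤ (2 ^ n) ^ 2 ^ n := Nat.pow_le_pow_left (num h) _

/-- product of the signs of the first half of the coordinates -/
def P {n : ℕ} (v : V n) : ℤ := ∏ i : Fin n, (if (i : ℕ) < n / 2 then sg (v i) else 1)

theorem P_nb {n : ℕ} (v : V n) (i : Fin n) :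
    P (nb v i) = (if (i : ℕ) < n / 2 then -1 else 1) * P v := by
  classical
  have h1 : ∀ w : V n, P w = (if (i : ℕ) < n / 2 then sg (w i) else 1) *
      ∏ j ∈ univ.erase i, (if (j : ℕ) < n / 2 then sg (w j) else 1) := by
    intro w
    rw [P, ← Finset.mul_prod_erase univ _ (Finset.mem_univ i)]
  rw [h1 (nb v i), h1 v]
  have h2 : ∏ j ∈ univ.erase i, (if (j : ℕ) < n / 2 then sg (nb v i j) else 1) =
      ∏ j ∈ univ.erase i, (if (j : ℕ) < n / 2 then sg (v j) else 1) := by
    apply Finset.prod_congr rfl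
    intro j hj
    rw [Finset.mem_erase] at hj
    rw [nb, Function.update_of_ne hj.1]
  rw [h2, nb, Function.update_self, ← mul_assoc]
  congr 1
  split_ifs
  · cases v i <;> simp [sg]
  · simp

theorem P_pm {n : ℕ} (v : V n) : P v = 1 ∨ P v = -1 := by
  rw [P]
  apply Finset.prod_induction _ (fun x : ℤ => x = 1 ∨ x = -1)
  · rintro a b (rfl | rfl) (rfl | rfl) <;> simp
  · simp
  · intro i _
    split_ifs
    · cases v i <;> simp [sg]
    · simp

theorem upper_sum {n : ℕ} (w : Fin n → Bool) (v : V n) :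
    |∑ i, if w i = true then sg (decide (P (nb v i) = 1)) else 0| ≤ (((n + 1) / 2 : ℕ) : ℤ) := by
  have h0 : ∀ u : V n, sg (decide (P u = 1)) = P u := by
    intro u
    rcases P_pm u with h | h <;> rw [h] <;> simp [sg]
  have h1 : ∑ i, (if w i = true then sg (decide (P (nb v i) = 1)) else 0) =
      P v * (((univ.filter (fun i : Fin n => w i = true ∧ ¬ (i : ℕ) < n / 2)).card : ℤ) -
        ((univ.filter (fun i : Fin n => w i = true ∧ (i : ℕ) < n / 2)).card : ℤ)) := by
    rw [Finset.card_filter, Finset.card_filter]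
    push_cast
    rw [← Finset.sum_sub_distrib, Finset.mul_sum]
    apply Finset.sum_congr rfl
    intro i _
    rw [h0, P_nb]
    by_cases hw : w i = true <;> by_cases hi : (i : ℕ) < n / 2 <;> simp [hw, hi]
  have hA : (univ.filter (fun i : Fin n => w i = true ∧ (i : ℕ) < n / 2)).card ≤ n / 2 := by
    refine (Finset.card_le_card_of_injOn (t := range (n / 2)) (fun i : Fin n => (i : ℕ)) ?_
      (fun a _ b _ hab => Fin.ext hab)).trans (by simp)
    intro i hi
    simp only [Finset.coe_filter, Finset.mem_univ, true_and, Set.mem_ofPred_eq] at hi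
    simpa using hi.2
  have hB : (univ.filter (fun i : Fin n => w i = true ∧ ¬ (i : ℕ) < n / 2)).card ≤
      n - n / 2 := by
    refine (Finset.card_le_card_of_injOn (t := Finset.Ico (n / 2) n) (fun i : Fin n => (i : ℕ)) ?_
      (fun a _ b _ hab => Fin.ext hab)).trans (by simp)
    intro i hi
    simp only [Finset.coe_filter, Finset.mem_univ, true_and, Set.mem_ofPred_eq] at hi
    simp only [Finset.coe_Ico, Set.mem_Ico]
    have := i.2
    omega
  rw [h1]
  rcases P_pm v with h | h <;> rw [h, abs_le] <;> constructor <;> omega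
/-- Every family has discrepancy at most `⌈n/2⌉`. -/
theorem disc_le {n : ℕ} (ω : V n → Fin n → Bool) : disc (S ω) ≤ (n + 1) / 2 := by
  refine Nat.sInf_le ⟨fun u => decide (P u = 1), fun v => ?_⟩
  rw [sum_S]
  exact upper_sum (ω v) v

section LLL
variable {X : Type*} [Fintype X] [DecidableEq X]

/-- independence: events depending on complementary sets of coordinates -/
theorem indep (N : X → Prop) [DecidablePred N] (A G : (X → Bool) → Prop)
    [DecidablePred A] [DecidablePred G]
    (hA : ∀ χ χ' : X → Bool, (∀ x, N x → χ x = χ' x) → (A χ ↔ A χ'))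
    (hG : ∀ χ χ' : X → Bool, (∀ x, ¬ N x → χ x = χ' x) → (G χ ↔ G χ')) :
    (univ.filter (fun χ : X → Bool => A χ ∧ G χ)).card * Fintype.card (X → Bool) =
      (univ.filter (fun χ : X → Bool => A χ)).card * (univ.filter (fun χ : X → Bool => G χ)).card := by
  classical
  rw [← Finset.card_univ, ← Finset.card_product, ← Finset.card_product]
  let sw : (X → Bool) × (X → Bool) → (X → Bool) × (X → Bool) := fun q =>
    (fun x => if N x then q.1 x else q.2 x, fun x => if N x then q.2 x else q.1 x)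
  have hsw : ∀ q, sw (sw q) = q := by
    intro q
    ext x <;> by_cases h : N x <;> simp [sw, h]
  have e1 : ∀ q : (X → Bool) × (X → Bool), A (sw q).1 ↔ A q.1 := fun q =>
    hA _ _ (fun x hx => by simp [sw, hx])
  have e2 : ∀ q : (X → Bool) × (X → Bool), G (sw q).1 ↔ G q.2 := fun q =>
    hG _ _ (fun x hx => by simp [sw, hx])
  have e3 : ∀ q : (X → Bool) × (X → Bool), G (sw q).2 ↔ G q.1 := fun q =>
    hG _ _ (fun x hx => by simp [sw, hx])
  refine Finset.card_nbij' sw sw ?_ ?_ (fun q _ => hsw q) (fun q _ => hsw q)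
  · intro q hq
    simp only [Finset.coe_product, Finset.coe_filter, Finset.coe_univ, Set.mem_prod,
      Finset.mem_univ, true_and, Set.mem_ofPred_eq, Set.mem_univ, and_true] at hq ⊢
    exact ⟨(e1 q).mpr hq.1, (e3 q).mpr hq.2⟩
  · intro q hq
    simp only [Finset.coe_product, Finset.coe_filter, Finset.coe_univ, Set.mem_prod,
      Finset.mem_univ, true_and, Set.mem_ofPred_eq, Set.mem_univ, and_true] at hq ⊢
    exact ⟨(e1 q).mpr hq.1, (e2 q).mpr hq.2⟩

/-- Local lemma, counting version. `B v` bad events, `N v` the coordinates they depend on. -/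
theorem lll {I : Type*} [Fintype I] [DecidableEq I] (B : I → (X → Bool) → Prop)
    [∀ v, DecidablePred (B v)] (N : I → Finset X) (p : ℝ) (d : ℕ) (hp : 0 ≤ p)
    (hB : ∀ v (χ χ' : X → Bool), (∀ x ∈ N v, χ x = χ' x) → (B v χ ↔ B v χ'))
    (hpB : ∀ v, ((univ.filter (fun χ : X → Bool => B v χ)).card : ℝ) ≤
      p * Fintype.card (X → Bool))
    (hd : ∀ v, (univ.filter (fun u => u ≠ v ∧ ¬ Disjoint (N u) (N v))).card ≤ d)
    (hpd : 4 * p * d ≤ 1) :
    ∀ (k : ℕ) (T : Finset I), T.card = k → ∀ v, v ∉ T →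
      ((univ.filter (fun χ : X → Bool => B v χ ∧ ∀ u ∈ T, ¬ B u χ)).card : ℝ) ≤
        2 * p * (univ.filter (fun χ : X → Bool => ∀ u ∈ T, ¬ B u χ)).card := by
  classical
  intro k
  induction k using Nat.strong_induction_on with
  | _ k ih =>
    intro T hT v hv
    set T2 := T.filter (fun u => Disjoint (N u) (N v)) with hT2
    set T1 := T.filter (fun u => ¬ Disjoint (N u) (N v)) with hT1
    have hsub2 : T2 ⊆ T := Finset.filter_subset _ _
    have hΩ : (0 : ℝ) < Fintype.card (X → Bool) := by exact_mod_cast Fintype.card_pos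
    -- independence
    have hind := indep (fun x => x ∈ N v) (B v) (fun χ => ∀ u ∈ T2, ¬ B u χ)
      (fun χ χ' h => hB v χ χ' h)
      (fun χ χ' h => by
        constructor
        · intro hg u hu hb
          refine hg u hu ((hB u χ χ' (fun x hx => h x ?_)).mpr hb)
          exact fun hxv => (Finset.disjoint_left.mp (Finset.mem_filter.mp hu).2) hx hxv
        · intro hg u hu hb
          refine hg u hu ((hB u χ χ' (fun x hx => h x ?_)).mp hb)
          exact fun hxv => (Finset.disjoint_left.mp (Finset.mem_filter.mp hu).2) hx hxv)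
    have hind' : ((univ.filter (fun χ : X → Bool => B v χ ∧ ∀ u ∈ T2, ¬ B u χ)).card : ℝ) ≤
        p * (univ.filter (fun χ : X → Bool => ∀ u ∈ T2, ¬ B u χ)).card := by
      have h1 : ((univ.filter (fun χ : X → Bool => B v χ ∧ ∀ u ∈ T2, ¬ B u χ)).card : ℝ) *
          Fintype.card (X → Bool) = ((univ.filter (fun χ : X → Bool => B v χ)).card : ℝ) *
          (univ.filter (fun χ : X → Bool => ∀ u ∈ T2, ¬ B u χ)).card := by exact_mod_cast hind
      have h2 := mul_le_mul_of_nonneg_right (hpB v)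
        (Nat.cast_nonneg (α := ℝ) (univ.filter (fun χ : X → Bool => ∀ u ∈ T2, ¬ B u χ)).card)
      rw [← h1] at h2
      have h3 : Fintype.card (X → Bool) * ((univ.filter (fun χ : X → Bool => B v χ ∧
          ∀ u ∈ T2, ¬ B u χ)).card : ℝ) ≤ Fintype.card (X → Bool) *
          (p * (univ.filter (fun χ : X → Bool => ∀ u ∈ T2, ¬ B u χ)).card) := by linarith
      exact le_of_mul_le_mul_left h3 hΩ
    -- first inequality
    have hle1 : ((univ.filter (fun χ : X → Bool => B v χ ∧ ∀ u ∈ T, ¬ B u χ)).card : ℝ) ≤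
        (univ.filter (fun χ : X → Bool => B v χ ∧ ∀ u ∈ T2, ¬ B u χ)).card := by
      have : (univ.filter (fun χ : X → Bool => B v χ ∧ ∀ u ∈ T, ¬ B u χ)).card ≤
        (univ.filter (fun χ : X → Bool => B v χ ∧ ∀ u ∈ T2, ¬ B u χ)).card := by
        apply Finset.card_le_card
        intro χ hχ
        rw [Finset.mem_filter] at hχ ⊢
        exact ⟨hχ.1, hχ.2.1, fun u hu => hχ.2.2 u (hsub2 hu)⟩
      exact_mod_cast this
    -- second inequality
    have hle2 : ((univ.filter (fun χ : X → Bool => ∀ u ∈ T2, ¬ B u χ)).card : ℝ) ≤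
        2 * (univ.filter (fun χ : X → Bool => ∀ u ∈ T, ¬ B u χ)).card := by
      rcases Finset.eq_empty_or_nonempty T1 with hE | hNE
      · have : T2 = T := by
          apply Finset.filter_true_of_mem
          intro u hu
          by_contra hcon
          have : u ∈ T1 := Finset.mem_filter.mpr ⟨hu, hcon⟩
          rw [hE] at this
          exact absurd this (Finset.notMem_empty u)
        rw [this]
        have : (0 : ℝ) ≤ (univ.filter (fun χ : X → Bool => ∀ u ∈ T, ¬ B u χ)).card :=
          Nat.cast_nonneg _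
        linarith
      · have hcard2 : T2.card < k := by
          rw [← hT]
          apply Finset.card_lt_card
          refine ⟨hsub2, fun hcon => ?_⟩
          obtain ⟨u, hu⟩ := hNE
          have hu' := Finset.mem_filter.mp hu
          exact hu'.2 (Finset.mem_filter.mp (hcon hu'.1)).2
        have hcov : (univ.filter (fun χ : X → Bool => ∀ u ∈ T2, ¬ B u χ)) ⊆
            (univ.filter (fun χ : X → Bool => ∀ u ∈ T, ¬ B u χ)) ∪
            T1.biUnion (fun w => univ.filter (fun χ : X → Bool => B w χ ∧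
              ∀ u ∈ T2, ¬ B u χ)) := by
          intro χ hχ
          rw [Finset.mem_filter] at hχ
          rw [Finset.mem_union, Finset.mem_filter, Finset.mem_biUnion]
          by_cases hall : ∀ u ∈ T, ¬ B u χ
          · exact Or.inl ⟨Finset.mem_univ _, hall⟩
          · push Not at hall
            obtain ⟨w, hw, hbw⟩ := hall
            refine Or.inr ⟨w, Finset.mem_filter.mpr ⟨hw, fun hdis => ?_⟩,
              Finset.mem_filter.mpr ⟨Finset.mem_univ _, hbw, hχ.2⟩⟩
            exact hχ.2 w (Finset.mem_filter.mpr ⟨hw, hdis⟩) hbw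
        have h1 := (Finset.card_le_card hcov).trans ((Finset.card_union_le _ _).trans
          (Nat.add_le_add_left Finset.card_biUnion_le _))
        have h2 : ∀ w ∈ T1, ((univ.filter (fun χ : X → Bool => B w χ ∧
            ∀ u ∈ T2, ¬ B u χ)).card : ℝ) ≤ 2 * p *
            (univ.filter (fun χ : X → Bool => ∀ u ∈ T2, ¬ B u χ)).card := by
          intro w hw
          refine ih T2.card hcard2 T2 rfl w ?_
          intro hw2
          exact (Finset.mem_filter.mp hw).2 (Finset.mem_filter.mp hw2).2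
        have h3 := Finset.sum_le_sum h2
        rw [Finset.sum_const, nsmul_eq_mul] at h3
        have h4 : T1.card ≤ d := by
          refine (Finset.card_le_card ?_).trans (hd v)
          intro u hu
          have hu' := Finset.mem_filter.mp hu
          exact Finset.mem_filter.mpr ⟨Finset.mem_univ _, fun h => hv (h ▸ hu'.1), hu'.2⟩
        have h4' : (T1.card : ℝ) ≤ d := by exact_mod_cast h4
        have h1' : ((univ.filter (fun χ : X → Bool => ∀ u ∈ T2, ¬ B u χ)).card : ℝ) ≤
            (univ.filter (fun χ : X → Bool => ∀ u ∈ T, ¬ B u χ)).card +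
            ∑ w ∈ T1, ((univ.filter (fun χ : X → Bool => B w χ ∧
              ∀ u ∈ T2, ¬ B u χ)).card : ℝ) := by exact_mod_cast h1
        set g2 : ℝ := ((univ.filter (fun χ : X → Bool => ∀ u ∈ T2, ¬ B u χ)).card : ℝ)
        have hg2 : 0 ≤ g2 := Nat.cast_nonneg _
        have h5 : (T1.card : ℝ) * (2 * p * g2) ≤ d * (2 * p * g2) :=
          mul_le_mul_of_nonneg_right h4' (by positivity)
        have h6 : (d : ℝ) * (2 * p * g2) ≤ g2 / 2 := by nlinarith
        linarith
    calc ((univ.filter (fun χ : X → Bool => B v χ ∧ ∀ u ∈ T, ¬ B u χ)).card : ℝ) ≤ _ := hle1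
      _ ≤ p * (univ.filter (fun χ : X → Bool => ∀ u ∈ T2, ¬ B u χ)).card := hind'
      _ ≤ p * (2 * (univ.filter (fun χ : X → Bool => ∀ u ∈ T, ¬ B u χ)).card) :=
        mul_le_mul_of_nonneg_left hle2 hp
      _ = _ := by ring

theorem lll_exists {I : Type*} [Fintype I] [DecidableEq I] (B : I → (X → Bool) → Prop)
    [∀ v, DecidablePred (B v)] (N : I → Finset X) (p : ℝ) (d : ℕ) (hp : 0 ≤ p) (hp2 : 2 * p < 1)
    (hB : ∀ v (χ χ' : X → Bool), (∀ x ∈ N v, χ x = χ' x) → (B v χ ↔ B v χ'))
    (hpB : ∀ v, ((univ.filter (fun χ : X → Bool => B v χ)).card : ℝ) ≤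
      p * Fintype.card (X → Bool))
    (hd : ∀ v, (univ.filter (fun u => u ≠ v ∧ ¬ Disjoint (N u) (N v))).card ≤ d)
    (hpd : 4 * p * d ≤ 1) : ∃ χ : X → Bool, ∀ v, ¬ B v χ := by
  classical
  have key : ∀ T : Finset I,
      0 < (univ.filter (fun χ : X → Bool => ∀ u ∈ T, ¬ B u χ)).card := by
    intro T
    induction T using Finset.induction_on with
    | empty => simp
    | insert v T hv ih =>
      have h1 := lll B N p d hp hB hpB hd hpd T.card T rfl v hv
      have h2 : (univ.filter (fun χ : X → Bool => ∀ u ∈ T, ¬ B u χ)).card ≤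
          (univ.filter (fun χ : X → Bool => ∀ u ∈ insert v T, ¬ B u χ)).card +
          (univ.filter (fun χ : X → Bool => B v χ ∧ ∀ u ∈ T, ¬ B u χ)).card := by
        refine (Finset.card_le_card ?_).trans (Finset.card_union_le _ _)
        intro χ hχ
        rw [Finset.mem_filter] at hχ
        rw [Finset.mem_union, Finset.mem_filter, Finset.mem_filter]
        by_cases hb : B v χ
        · exact Or.inr ⟨hχ.1, hb, hχ.2⟩
        · refine Or.inl ⟨hχ.1, fun u hu => ?_⟩
          rcases Finset.mem_insert.mp hu with rfl | hu'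
          · exact hb
          · exact hχ.2 u hu'
      have h2' : ((univ.filter (fun χ : X → Bool => ∀ u ∈ T, ¬ B u χ)).card : ℝ) ≤
          (univ.filter (fun χ : X → Bool => ∀ u ∈ insert v T, ¬ B u χ)).card +
          (univ.filter (fun χ : X → Bool => B v χ ∧ ∀ u ∈ T, ¬ B u χ)).card := by
        exact_mod_cast h2
      have ih' : (0 : ℝ) < (univ.filter (fun χ : X → Bool => ∀ u ∈ T, ¬ B u χ)).card := by
        exact_mod_cast ih
      have h3 : (0 : ℝ) <
          (univ.filter (fun χ : X → Bool => ∀ u ∈ insert v T, ¬ B u χ)).card := by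
        nlinarith
      exact_mod_cast h3
  obtain ⟨χ, hχ⟩ := Finset.card_pos.mp (key univ)
  exact ⟨χ, fun v => (Finset.mem_filter.mp hχ).2 v (Finset.mem_univ v)⟩

end LLL

section Tail
variable {X : Type*} [Fintype X] [DecidableEq X]

theorem expmoment (T : Finset X) (l : ℝ) :
    ∑ χ : X → Bool, Real.exp (l * ((∑ x ∈ T, sg (χ x) : ℤ) : ℝ)) =
      (Fintype.card (X → Bool) : ℝ) * Real.cosh l ^ T.card := by
  classical
  have h1 : ∀ χ : X → Bool, Real.exp (l * ((∑ x ∈ T, sg (χ x) : ℤ) : ℝ)) =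
      ∏ x : X, (if x ∈ T then Real.exp (l * ((sg (χ x) : ℤ) : ℝ)) else 1) := by
    intro χ
    rw [Finset.prod_ite_mem, Finset.univ_inter, ← Real.exp_sum, Int.cast_sum, Finset.mul_sum]
  rw [Finset.sum_congr rfl (fun χ _ => h1 χ)]
  have h2 := Finset.prod_univ_sum (fun _ : X => (univ : Finset Bool))
    (fun x b => (if x ∈ T then Real.exp (l * ((sg b : ℤ) : ℝ)) else (1 : ℝ)))
  rw [Fintype.piFinset_univ] at h2
  rw [← h2]
  have h3 : ∀ x ∈ (univ : Finset X), ∑ b ∈ (univ : Finset Bool),
      (if x ∈ T then Real.exp (l * ((sg b : ℤ) : ℝ)) else (1 : ℝ)) =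
      2 * (if x ∈ T then Real.cosh l else 1) := by
    intro x _
    rw [Fintype.sum_bool]
    split_ifs
    · rw [Real.cosh_eq]
      simp [sg]
      ring
    · norm_num
  rw [Finset.prod_congr rfl h3, Finset.prod_mul_distrib, Finset.prod_const, Finset.prod_ite_mem,
    Finset.univ_inter, Finset.prod_const, Finset.card_univ, Fintype.card_fun, Fintype.card_bool]
  push_cast
  rfl

theorem tail_one (T : Finset X) (n : ℕ) (hn : 1 ≤ n) (hT : T.card ≤ n) (D : ℝ) (hD : 0 ≤ D)
    (e : ℝ) (he : e = 1 ∨ e = -1) :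
    ((univ.filter (fun χ : X → Bool => D < e * ((∑ x ∈ T, sg (χ x) : ℤ) : ℝ))).card : ℝ) ≤
      Real.exp (-(D ^ 2 / (2 * n))) * Fintype.card (X → Bool) := by
  classical
  have hn0 : (0 : ℝ) < n := by exact_mod_cast hn
  have h1 : ((univ.filter (fun χ : X → Bool => D < e * ((∑ x ∈ T, sg (χ x) : ℤ) : ℝ))).card : ℝ) *
      Real.exp (D / n * D) ≤
      ∑ χ : X → Bool, Real.exp (D / n * e * ((∑ x ∈ T, sg (χ x) : ℤ) : ℝ)) := by
    rw [← nsmul_eq_mul, ← Finset.sum_const]
    refine le_trans (Finset.sum_le_sum (fun χ hχ => ?_))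
      (Finset.sum_le_sum_of_subset_of_nonneg (Finset.filter_subset _ _)
        (fun _ _ _ => (Real.exp_pos _).le))
    apply Real.exp_le_exp.mpr
    rw [Finset.mem_filter] at hχ
    rw [mul_assoc (D / n) e]
    exact mul_le_mul_of_nonneg_left hχ.2.le (by positivity)
  rw [expmoment] at h1
  have h2 : Real.cosh (D / n * e) ^ T.card ≤ Real.exp (D ^ 2 / (2 * n)) := by
    have h3 : Real.cosh (D / n * e) ≤ Real.exp ((D / n) ^ 2 / 2) := by
      have := Real.cosh_le_exp_half_sq (D / n * e)
      rcases he with rfl | rfl <;> simpa using this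
    calc Real.cosh (D / n * e) ^ T.card ≤ (Real.exp ((D / n) ^ 2 / 2)) ^ T.card :=
          pow_le_pow_left₀ (Real.cosh_pos _).le h3 _
      _ ≤ (Real.exp ((D / n) ^ 2 / 2)) ^ n :=
          pow_le_pow_right₀ (Real.one_le_exp (by positivity)) hT
      _ = Real.exp (D ^ 2 / (2 * n)) := by
          rw [← Real.exp_nat_mul]
          congr 1
          field_simp
  have hΩ : (0 : ℝ) ≤ Fintype.card (X → Bool) := Nat.cast_nonneg _
  have h4 := h1.trans (mul_le_mul_of_nonneg_left h2 hΩ)
  have h5 : Real.exp (D / n * D) = Real.exp (D ^ 2 / (2 * n)) * Real.exp (D ^ 2 / (2 * n)) := by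
    rw [← Real.exp_add]
    congr 1
    field_simp
    ring
  rw [h5] at h4
  rw [Real.exp_neg]
  have hE : 0 < Real.exp (D ^ 2 / (2 * n)) := Real.exp_pos _
  rw [inv_mul_eq_div, le_div_iff₀ hE]
  have h6 : Real.exp (D ^ 2 / (2 * n)) * (((univ.filter (fun χ : X → Bool =>
      D < e * ((∑ x ∈ T, sg (χ x) : ℤ) : ℝ))).card : ℝ) * Real.exp (D ^ 2 / (2 * n))) ≤
      Real.exp (D ^ 2 / (2 * n)) * Fintype.card (X → Bool) := by linarith
  exact le_of_mul_le_mul_left h6 hE

theorem tail (T : Finset X) (n : ℕ) (hn : 1 ≤ n) (hT : T.card ≤ n) (D : ℕ) :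
    ((univ.filter (fun χ : X → Bool => (D : ℤ) < |∑ x ∈ T, sg (χ x)|)).card : ℝ) ≤
      2 * Real.exp (-((D : ℝ) ^ 2 / (2 * n))) * Fintype.card (X → Bool) := by
  classical
  have h1 := tail_one T n hn hT D (Nat.cast_nonneg _) 1 (Or.inl rfl)
  have h2 := tail_one T n hn hT D (Nat.cast_nonneg _) (-1) (Or.inr rfl)
  have h3 : (univ.filter (fun χ : X → Bool => (D : ℤ) < |∑ x ∈ T, sg (χ x)|)).card ≤
      (univ.filter (fun χ : X → Bool => (D : ℝ) < 1 * ((∑ x ∈ T, sg (χ x) : ℤ) : ℝ))).card +
      (univ.filter (fun χ : X → Bool => (D : ℝ) < -1 * ((∑ x ∈ T, sg (χ x) : ℤ) : ℝ))).card := by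
    refine (Finset.card_le_card ?_).trans (Finset.card_union_le _ _)
    intro χ hχ
    rw [Finset.mem_filter, lt_abs] at hχ
    rw [Finset.mem_union, Finset.mem_filter, Finset.mem_filter]
    rcases hχ.2 with h | h
    · refine Or.inl ⟨Finset.mem_univ _, ?_⟩
      rw [one_mul]
      exact_mod_cast h
    · refine Or.inr ⟨Finset.mem_univ _, ?_⟩
      rw [neg_one_mul]
      exact_mod_cast h
  have h3' : ((univ.filter (fun χ : X → Bool => (D : ℤ) < |∑ x ∈ T, sg (χ x)|)).card : ℝ) ≤
      ((univ.filter (fun χ : X → Bool => (D : ℝ) < 1 * ((∑ x ∈ T, sg (χ x) : ℤ) : ℝ))).card : ℝ) +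
      (univ.filter (fun χ : X → Bool => (D : ℝ) < -1 * ((∑ x ∈ T, sg (χ x) : ℤ) : ℝ))).card := by
    exact_mod_cast h3
  linarith

end Tail

theorem nb_nb {n : ℕ} (v : V n) (i : Fin n) : nb (nb v i) i = v := by
  funext j
  by_cases h : j = i
  · subst h; simp [nb]
  · simp [nb, Function.update_of_ne h]

theorem disc_lll {n : ℕ} (hn : 1 ≤ n) (ω : V n → Fin n → Bool) (D : ℕ)
    (hD : 8 * (n : ℝ) ^ 2 ≤ Real.exp ((D : ℝ) ^ 2 / (2 * n))) : disc (S ω) ≤ D := by
  classical
  have hn1 : (1 : ℝ) ≤ n := by exact_mod_cast hn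
  have hE : 0 < Real.exp ((D : ℝ) ^ 2 / (2 * n)) := Real.exp_pos _
  have hp : 8 * (n : ℝ) ^ 2 * Real.exp (-((D : ℝ) ^ 2 / (2 * n))) ≤ 1 := by
    rw [Real.exp_neg, ← div_eq_mul_inv, div_le_one hE]
    exact hD
  have hn2 : (1 : ℝ) ≤ (n : ℝ) ^ 2 := one_le_pow₀ hn1
  have hpos : 0 < Real.exp (-((D : ℝ) ^ 2 / (2 * n))) := Real.exp_pos _
  obtain ⟨χ, hχ⟩ := lll_exists (X := V n) (I := V n)
    (fun v χ => (D : ℤ) < |∑ x ∈ S ω v, sg (χ x)|) (S ω)
    (2 * Real.exp (-((D : ℝ) ^ 2 / (2 * n)))) (n ^ 2) (by positivity)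
    (by nlinarith)
    (by
      intro v χ χ' h
      rw [Finset.sum_congr rfl (fun x hx => by rw [h x hx])])
    (by
      intro v
      refine tail (S ω v) n hn ?_ D
      refine Finset.card_image_le.trans ((Finset.card_filter_le _ _).trans ?_)
      simp)
    (by
      intro v
      have hsub : (univ.filter (fun u => u ≠ v ∧ ¬ Disjoint (S ω u) (S ω v))) ⊆
          (univ : Finset (Fin n × Fin n)).image (fun q => nb (nb v q.1) q.2) := by
        intro u hu
        have hu' := (Finset.mem_filter.mp hu).2.2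
        rw [Finset.not_disjoint_iff] at hu'
        obtain ⟨x, hx1, hx2⟩ := hu'
        rw [S, Finset.mem_image] at hx1 hx2
        obtain ⟨j, _, hj⟩ := hx1
        obtain ⟨i, _, hi⟩ := hx2
        rw [Finset.mem_image]
        refine ⟨(i, j), Finset.mem_univ _, ?_⟩
        simp only
        rw [hi, ← hj, nb_nb]
      refine (Finset.card_le_card hsub).trans (Finset.card_image_le.trans ?_)
      simp [sq])
    (by push_cast; nlinarith)
  exact Nat.sInf_le ⟨χ, fun v => not_lt.mp (hχ v)⟩

/-- `disc ≤ √(2 n log(8 n²)) + 1` for every family. -/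
theorem disc_upper {n : ℕ} (hn : 1 ≤ n) (ω : V n → Fin n → Bool) :
    (disc (S ω) : ℝ) ≤ √(2 * n * Real.log (8 * (n : ℝ) ^ 2)) + 1 := by
  have hn1 : (1 : ℝ) ≤ n := by exact_mod_cast hn
  have hn0 : (0 : ℝ) < n := by linarith
  set y := √(2 * n * Real.log (8 * (n : ℝ) ^ 2)) with hy
  have hlog : 0 ≤ Real.log (8 * (n : ℝ) ^ 2) := Real.log_nonneg (by nlinarith)
  have hy0 : 0 ≤ y := Real.sqrt_nonneg _
  have hy2 : y ^ 2 = 2 * n * Real.log (8 * (n : ℝ) ^ 2) := Real.sq_sqrt (by positivity)
  have h1 : disc (S ω) ≤ ⌈y⌉₊ := by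
    refine disc_lll hn ω ⌈y⌉₊ ?_
    have h2 : y ≤ (⌈y⌉₊ : ℝ) := Nat.le_ceil y
    have h3 : Real.log (8 * (n : ℝ) ^ 2) ≤ ((⌈y⌉₊ : ℕ) : ℝ) ^ 2 / (2 * n) := by
      rw [le_div_iff₀ (by positivity)]
      nlinarith [pow_le_pow_left₀ hy0 h2 2]
    calc 8 * (n : ℝ) ^ 2 = Real.exp (Real.log (8 * (n : ℝ) ^ 2)) := by
          rw [Real.exp_log (by positivity)]
      _ ≤ _ := Real.exp_le_exp.mpr h3
  have h4 : (disc (S ω) : ℝ) ≤ (⌈y⌉₊ : ℝ) := by exact_mod_cast h1
  have h5 := Nat.ceil_lt_add_one hy0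
  linarith

/-- The discrepancy is at most `√(2 n log (8 n²)) + 1` and at most `⌈n/2⌉` for every family, and
for `n ≥ 144` it is greater than `√n / 12` for all but a fraction `2^(-2^n)` of the families. -/
theorem result :
    (∀ (n : ℕ) (ω : V n → Fin n → Bool), 1 ≤ n →
      (disc (S ω) : ℝ) ≤ √(2 * n * Real.log (8 * (n : ℝ) ^ 2)) + 1) ∧
    (∀ (n : ℕ) (ω : V n → Fin n → Bool), disc (S ω) ≤ (n + 1) / 2) ∧
    (∀ n t : ℕ, 16 * (2 * t + 1) ^ 2 ≤ n + 1 →
      (univ.filter (fun ω : V n → Fin n → Bool => disc (S ω) ≤ t)).card * 2 ^ (2 ^ n) ≤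
        Fintype.card (V n → Fin n → Bool)) ∧
    (∀ n : ℕ, 144 ≤ n →
      1 - (1 / 2 : ℝ) ^ (2 ^ n) ≤
        (Nat.card {ω : V n → Fin n → Bool // √(n : ℝ) / 12 < disc (S ω)} : ℝ) /
          Fintype.card (V n → Fin n → Bool)) := by
  classical
  refine ⟨fun n ω hn => disc_upper hn ω, fun n ω => disc_le ω, fun n t h => count h, ?_⟩
  intro n hn
  set t : ℕ := Nat.sqrt n / 12 with ht
  have hs := Nat.sqrt_le' n
  have hs12 : 12 ≤ Nat.sqrt n := Nat.le_sqrt'.mpr (by omega)
  have h12 : 12 * t ≤ Nat.sqrt n := Nat.mul_div_le _ _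
  have h16 : 16 * (2 * t + 1) ^ 2 ≤ n + 1 := by
    have h1 : 4 * (2 * t + 1) ≤ Nat.sqrt n := by omega
    have h2 := Nat.pow_le_pow_left h1 2
    nlinarith
  have hc := count h16
  have hpos : (0 : ℝ) < Fintype.card (V n → Fin n → Bool) := by
    exact_mod_cast Fintype.card_pos
  have hsplit := Finset.card_filter_add_card_filter_not (s := (univ : Finset (V n → Fin n → Bool)))
    (fun ω => disc (S ω) ≤ t)
  rw [Finset.card_univ] at hsplit
  have hle : (univ.filter (fun ω : V n → Fin n → Bool => ¬ disc (S ω) ≤ t)).card ≤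
      Nat.card {ω : V n → Fin n → Bool // √(n : ℝ) / 12 < disc (S ω)} := by
    rw [Nat.card_eq_fintype_card, Fintype.card_subtype]
    apply Finset.card_le_card
    intro ω hω
    rw [Finset.mem_filter] at hω ⊢
    refine ⟨hω.1, ?_⟩
    have h1 : t + 1 ≤ disc (S ω) := by have := hω.2; omega
    have h2 : Nat.sqrt n + 1 ≤ 12 * disc (S ω) := by omega
    have h3 : √(n : ℝ) < (Nat.sqrt n : ℝ) + 1 := by
      rw [Real.sqrt_lt' (by positivity)]
      exact_mod_cast Nat.lt_succ_sqrt' n
    have h4 : (Nat.sqrt n : ℝ) + 1 ≤ 12 * disc (S ω) := by exact_mod_cast h2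
    linarith
  rw [le_div_iff₀ hpos]
  have hc' : ((univ.filter (fun ω : V n → Fin n → Bool => disc (S ω) ≤ t)).card : ℝ) *
      2 ^ (2 ^ n) ≤ Fintype.card (V n → Fin n → Bool) := by exact_mod_cast hc
  have hsplit' : ((univ.filter (fun ω : V n → Fin n → Bool => disc (S ω) ≤ t)).card : ℝ) +
      (univ.filter (fun ω : V n → Fin n → Bool => ¬ disc (S ω) ≤ t)).card =
      Fintype.card (V n → Fin n → Bool) := by exact_mod_cast hsplit
  have hle' : ((univ.filter (fun ω : V n → Fin n → Bool => ¬ disc (S ω) ≤ t)).card : ℝ) ≤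
      Nat.card {ω : V n → Fin n → Bool // √(n : ℝ) / 12 < disc (S ω)} := by exact_mod_cast hle
  have hsmall : ((univ.filter (fun ω : V n → Fin n → Bool => disc (S ω) ≤ t)).card : ℝ) ≤
      (1 / 2 : ℝ) ^ (2 ^ n) * Fintype.card (V n → Fin n → Bool) := by
    rw [one_div, inv_pow, inv_mul_eq_div, le_div_iff₀ (by positivity)]
    exact hc'
  nlinarith

end Pool.Agent.Results.MP_3166d6_co.UpToLog
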